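import Pool.Agent.Helper26.MCE.GoalsA

/-!
Project MCE (MP_d8224a_co), packet MCE-CNT: number of popular classes.
-/

namespace Pool.Agent.Helper3.MCE

open Finset Pool.Agent.Helper87.MC Pool.Agent.Helper26.MCE

variable {G : Type} [AddCommGroup G] [Fintype G]

open Classical in
theorem cardK (K : AddSubgroup G) : Nat.card K = (univ.filter fun x : G => x ∈ K).card := by
  rw [Nat.card_eq_fintype_card]
  exact Fintype.card_of_subtype _ (by simp)

theorem fib_congr (D : Finset G) (K : AddSubgroup G) {x y : G} (h : x - y ∈ K) :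
    fib D K x = fib D K y := by
  classical
  ext z
  unfold fib
  simp only [mem_filter]
  constructor
  · rintro ⟨h1, h2⟩
    refine ⟨h1, ?_⟩
    have := K.add_mem h2 h
    rwa [sub_add_sub_cancel] at this
  · rintro ⟨h1, h2⟩
    refine ⟨h1, ?_⟩
    have := K.sub_mem h2 h
    rwa [sub_sub_sub_cancel_right] at this

open Classical in
/-- most of the sum over the fibres -/
theorem sum_fib (D : Finset G) (K M : AddSubgroup G) (hKM : K ≤ M) (b : G) :
    ∑ x ∈ univ.filter (fun x : G => x ∈ M), (fib D K (x + b)).card ≤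
      (fib D M b).card * Nat.card K := by
  have h1 : ∀ x : G, (fib D K (x + b)).card = ∑ y ∈ D, if y - (x + b) ∈ K then 1 else 0 := by
    intro x
    unfold fib
    rw [card_filter]
  simp only [h1]
  rw [sum_comm]
  have h2 : ∀ y ∈ D, (∑ x ∈ univ.filter (fun x : G => x ∈ M),
      if y - (x + b) ∈ K then 1 else 0) ≤ if y - b ∈ M then Nat.card K else 0 := by
    intro y _
    rw [← card_filter]
    split_ifs with hy
    · rw [cardK]
      refine card_le_card_of_injOn (fun x => y - (x + b)) ?_ ?_
      · intro x hx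
        have hx' := (mem_filter.1 (mem_coe.1 hx)).2
        exact mem_coe.2 (mem_filter.2 ⟨mem_univ _, hx'⟩)
      · intro x _ x' _ hxx
        have : y - (x + b) = y - (x' + b) := hxx
        have h3 := sub_right_injective this
        exact add_right_cancel h3
    · rw [Nat.le_zero, card_eq_zero, filter_eq_empty_iff]
      intro x hx hx2
      apply hy
      have hxM := (mem_filter.1 hx).2
      have h3 := M.add_mem (hKM hx2) hxM
      have h4 : y - (x + b) + x = y - b := by abel
      rwa [h4] at h3
  refine (sum_le_sum h2).trans (le_of_eq ?_)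
  unfold fib
  rw [card_filter, sum_mul]
  refine sum_congr rfl fun y _ => ?_
  split_ifs <;> simp

theorem goalCNT : G_CNT := by
  classical
  intro G _ _ D A B K M F FM T t hKM hF hT ht hAne hAD hsat hfib hM hBA hAB
  have hFr : (1 : ℝ) ≤ F := by exact_mod_cast hF
  have hApos : (0 : ℝ) < A.card := by exact_mod_cast card_pos.2 hAne
  have hBpos : (0 : ℝ) < B.card := by
    by_contra h
    have h0 : (B.card : ℝ) = 0 := le_antisymm (not_lt.1 h) (Nat.cast_nonneg _)
    rw [h0, mul_zero] at hAB
    linarith
  set θ : ℝ := F / (4 * T * t) with hθ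
  have hθpos : 0 < θ := by positivity
  set X := (pop D B K t).filter fun x => x ∈ M with hX
  -- many good elements of B for every x
  have key : ∀ x ∈ X, (B.card : ℝ) / (2 * t) ≤
      ((B.filter fun b => θ ≤ ((fib D K (x + b)).card : ℝ)).card : ℝ) := by
    intro x hx
    rw [hX, mem_filter] at hx
    obtain ⟨hx1, -⟩ := hx
    unfold pop at hx1
    rw [mem_filter] at hx1
    obtain ⟨-, w, hwx, hw⟩ := hx1
    have hfw : ∀ b, fib D K (w + b) = fib D K (x + b) := by
      intro b
      apply fib_congr
      have : w + b - (x + b) = w - x := by abel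
      rwa [this]
    -- bad elements
    set Bx := B.filter fun b => w + b ∈ D ∧ ((fib D K (x + b)).card : ℝ) < θ with hBx
    have hbad : (F : ℝ) * Bx.card ≤ 2 * (θ * A.card) := by
      -- pairs (b, a)
      have e1 : ∀ b ∈ Bx, F ≤ 2 * (A.filter fun a => b - a ∈ K).card := by
        intro b hb
        have hbB : b ∈ B := (mem_filter.1 hb).1
        have hbA : b ∈ A := hBA hbB
        have h1 := (hfib b hbA).2.2
        have h2 : fib D K b ⊆ A.filter fun a => b - a ∈ K := by
          intro y hy
          unfold fib at hy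
          rw [mem_filter] at hy ⊢
          refine ⟨hsat b hbA y hy.1 hy.2, ?_⟩
          rw [← neg_sub]
          exact K.neg_mem hy.2
        have h3 := card_le_card h2
        omega
      have e2 : ∀ a ∈ A, ((Bx.filter fun b => b - a ∈ K).card : ℝ) ≤ θ := by
        intro a _
        rcases (Bx.filter fun b => b - a ∈ K).eq_empty_or_nonempty with h | ⟨b0, hb0⟩
        · rw [h, card_empty, Nat.cast_zero]
          exact hθpos.le
        · rw [mem_filter] at hb0
          obtain ⟨hb0x, hb0a⟩ := hb0
          rw [hBx, mem_filter] at hb0x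
          have h1 : (Bx.filter fun b => b - a ∈ K).card ≤ (fib D K (w + b0)).card := by
            refine card_le_card_of_injOn (fun b => w + b) ?_ ?_
            · intro b hb
              have hb' := mem_filter.1 (mem_coe.1 hb)
              have hb2 := mem_filter.1 hb'.1
              apply mem_coe.2
              unfold fib
              rw [mem_filter]
              refine ⟨hb2.2.1, ?_⟩
              have h4 := K.sub_mem hb'.2 hb0a
              have h5 : w + b - (w + b0) = b - a - (b0 - a) := by abel
              rw [h5]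
              exact h4
            · intro b _ b' _ h
              exact add_left_cancel h
          rw [hfw] at h1
          have h2 : (((Bx.filter fun b => b - a ∈ K).card : ℕ) : ℝ) ≤
              ((fib D K (x + b0)).card : ℝ) := by exact_mod_cast h1
          exact h2.trans hb0x.2.2.le
      have e3 : ∑ b ∈ Bx, (A.filter fun a => b - a ∈ K).card =
          ∑ a ∈ A, (Bx.filter fun b => b - a ∈ K).card := by
        simp only [card_filter]
        exact sum_comm
      have e4 : F * Bx.card ≤ 2 * ∑ b ∈ Bx, (A.filter fun a => b - a ∈ K).card := by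
        rw [mul_sum, mul_comm, ← smul_eq_mul, ← sum_const]
        exact sum_le_sum e1
      rw [e3] at e4
      have e5 : (F : ℝ) * Bx.card ≤ 2 * ∑ a ∈ A, ((Bx.filter fun b => b - a ∈ K).card : ℝ) := by
        exact_mod_cast e4
      refine e5.trans (mul_le_mul_of_nonneg_left ?_ (by norm_num))
      calc ∑ a ∈ A, ((Bx.filter fun b => b - a ∈ K).card : ℝ) ≤ ∑ _a ∈ A, θ := sum_le_sum e2
        _ = θ * A.card := by rw [sum_const, nsmul_eq_mul, mul_comm]
    have hbad2 : (Bx.card : ℝ) ≤ B.card / (2 * t) := by
      have h1 : (F : ℝ) * Bx.card ≤ F * (B.card / (2 * t)) := by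
        calc (F : ℝ) * Bx.card ≤ 2 * (θ * A.card) := hbad
          _ ≤ 2 * (θ * (T * B.card)) := by gcongr
          _ = F * (B.card / (2 * t)) := by
              rw [hθ]
              field_simp
              ring
      exact le_of_mul_le_mul_left h1 (by positivity)
    have hsplit : (B.filter fun b => w + b ∈ D) ⊆
        (B.filter fun b => θ ≤ ((fib D K (x + b)).card : ℝ)) ∪ Bx := by
      intro b hb
      rw [mem_filter] at hb
      rw [mem_union, mem_filter, hBx, mem_filter]
      by_cases h : θ ≤ ((fib D K (x + b)).card : ℝ)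
      · exact Or.inl ⟨hb.1, h⟩
      · exact Or.inr ⟨hb.1, hb.2, not_le.1 h⟩
    have h2 : ((B.filter fun b => w + b ∈ D).card : ℝ) ≤
        ((B.filter fun b => θ ≤ ((fib D K (x + b)).card : ℝ)).card : ℝ) + Bx.card := by
      exact_mod_cast (card_le_card hsplit).trans (card_union_le _ _)
    have h3 : (B.card : ℝ) / t ≤ ((B.filter fun b => w + b ∈ D).card : ℝ) := by
      rw [div_le_iff₀ (by positivity), mul_comm]
      exact hw
    have h4 : (B.card : ℝ) / t = B.card / (2 * t) + B.card / (2 * t) := by
      field_simp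
      ring
    linarith
  -- few x for every b
  have few : ∀ b ∈ B, ((X.filter fun x => θ ≤ ((fib D K (x + b)).card : ℝ)).card : ℝ) * θ ≤
      FM * Nat.card K := by
    intro b hb
    have hbA := hBA hb
    have hNF : NF D M b := by
      obtain ⟨h, hh, hh2⟩ := (hfib b hbA).1
      exact ⟨h, hKM hh, hh2⟩
    have h1 := sum_fib D K M hKM b
    have h2 : ((X.filter fun x => θ ≤ ((fib D K (x + b)).card : ℝ)).card : ℝ) * θ ≤
        ∑ x ∈ univ.filter (fun x : G => x ∈ M), ((fib D K (x + b)).card : ℝ) := by
      calc ((X.filter fun x => θ ≤ ((fib D K (x + b)).card : ℝ)).card : ℝ) * θ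
          = ∑ _x ∈ X.filter fun x => θ ≤ ((fib D K (x + b)).card : ℝ), θ := by
            rw [sum_const, nsmul_eq_mul]
        _ ≤ ∑ x ∈ X.filter fun x => θ ≤ ((fib D K (x + b)).card : ℝ),
              ((fib D K (x + b)).card : ℝ) := by
            refine sum_le_sum fun x hx => ?_
            exact (mem_filter.1 hx).2
        _ ≤ _ := by
            refine sum_le_sum_of_subset_of_nonneg ?_ fun x _ _ => Nat.cast_nonneg _
            intro x hx
            rw [mem_filter] at hx
            rw [hX, mem_filter] at hx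
            exact mem_filter.2 ⟨mem_univ _, hx.1.2⟩
    have h3 : (∑ x ∈ univ.filter (fun x : G => x ∈ M), ((fib D K (x + b)).card : ℝ)) ≤
        ((fib D M b).card : ℝ) * Nat.card K := by
      exact_mod_cast h1
    have h4 : ((fib D M b).card : ℝ) ≤ FM := by exact_mod_cast hM b hNF
    exact h2.trans (h3.trans (mul_le_mul_of_nonneg_right h4 (Nat.cast_nonneg _)))
  -- double counting
  have hdc : ∑ x ∈ X, ((B.filter fun b => θ ≤ ((fib D K (x + b)).card : ℝ)).card : ℝ) =
      ∑ b ∈ B, ((X.filter fun x => θ ≤ ((fib D K (x + b)).card : ℝ)).card : ℝ) := by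
    simp only [card_filter, Nat.cast_sum]
    exact sum_comm
  have h1 : (X.card : ℝ) * (B.card / (2 * t)) ≤
      ∑ b ∈ B, ((X.filter fun x => θ ≤ ((fib D K (x + b)).card : ℝ)).card : ℝ) := by
    rw [← hdc]
    calc (X.card : ℝ) * (B.card / (2 * t)) = ∑ _x ∈ X, (B.card : ℝ) / (2 * t) := by
          rw [sum_const, nsmul_eq_mul]
      _ ≤ _ := sum_le_sum key
  have h2 : (∑ b ∈ B, ((X.filter fun x => θ ≤ ((fib D K (x + b)).card : ℝ)).card : ℝ)) * θ ≤
      B.card * (FM * Nat.card K) := by
    rw [sum_mul]
    calc ∑ b ∈ B, ((X.filter fun x => θ ≤ ((fib D K (x + b)).card : ℝ)).card : ℝ) * θ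
        ≤ ∑ _b ∈ B, (FM * Nat.card K : ℝ) := sum_le_sum few
      _ = B.card * (FM * Nat.card K) := by rw [sum_const, nsmul_eq_mul]
  have h3 : (X.card : ℝ) * (B.card / (2 * t)) * θ ≤ B.card * (FM * Nat.card K) :=
    (mul_le_mul_of_nonneg_right h1 hθpos.le).trans h2
  have h4 : (X.card : ℝ) * (B.card / (2 * t)) * θ = B.card * (X.card * F / (8 * T * t ^ 2)) := by
    rw [hθ]
    field_simp
    ring
  rw [h4] at h3
  have h5 := le_of_mul_le_mul_left h3 hBpos
  rw [div_le_iff₀ (by positivity)] at h5
  refine h5.trans ?_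
  have hFM : (0 : ℝ) ≤ FM * Nat.card K := by positivity
  have h6 : 8 * T * t ^ 2 ≤ 16 * T ^ 2 * t ^ 2 := by nlinarith [sq_nonneg t, mul_nonneg (sub_nonneg.2 hT) (sq_nonneg t), mul_nonneg (mul_nonneg (sub_nonneg.2 hT) (by linarith : (0:ℝ) ≤ T)) (sq_nonneg t)]
  calc (FM * Nat.card K : ℝ) * (8 * T * t ^ 2) ≤ (FM * Nat.card K : ℝ) * (16 * T ^ 2 * t ^ 2) :=
        mul_le_mul_of_nonneg_left h6 hFM
    _ = 16 * T ^ 2 * t ^ 2 * FM * Nat.card K := by ring

end Pool.Agent.Helper3.MCE
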